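import Pool.Agent.N949.CM.StmM

/-!
# CM/MIXS (helper787, project CM of helper949): averaging over a system of switches
-/

set_option autoImplicit false

namespace Pool.Agent.N787.CM

open Finset
open scoped Classical

section

variable {α κ β : Type} {Ω : Finset α} {Sl Oc : α → Finset κ} {f : α → κ → α} {K : α → β}

/-- the number of the objects with given key, slots and switches which are on -/
noncomputable def NN (Ω : Finset α) (Sl Oc : α → Finset κ) (K : α → β) (k : β) (E T : Finset κ) :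
    ℕ := (Ω.filter fun w => (K w = k ∧ Sl w = E) ∧ Oc w = T).card

theorem NN_insert (h2 : ∀ w ∈ Ω, ∀ q ∈ Sl w, f w q ∈ Ω ∧ Sl (f w q) = Sl w ∧ f (f w q) q = w ∧
    (q ∈ Oc w → Oc (f w q) = (Oc w).erase q) ∧ (q ∉ Oc w → Oc (f w q) = insert q (Oc w)))
    (hK : ∀ w ∈ Ω, ∀ q ∈ Sl w, K (f w q) = K w) (k : β) (E T : Finset κ) (q : κ) (hq : q ∈ E)
    (hqT : q ∉ T) : NN Ω Sl Oc K k E (insert q T) = NN Ω Sl Oc K k E T := by
  unfold NN
  refine Finset.card_nbij' (fun w => f w q) (fun w => f w q) ?_ ?_ ?_ ?_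
  · intro w hw
    simp only [Finset.coe_filter, Set.mem_setOf_eq] at hw ⊢
    obtain ⟨hw, ⟨h3, h4⟩, h5⟩ := hw
    have hqs : q ∈ Sl w := by rw [h4]; exact hq
    obtain ⟨a1, a2, a3, a4, a5⟩ := h2 w hw q hqs
    refine ⟨a1, ⟨(hK w hw q hqs).trans h3, a2.trans h4⟩, ?_⟩
    rw [a4 (by rw [h5]; exact Finset.mem_insert_self _ _), h5, Finset.erase_insert hqT]
  · intro w hw
    simp only [Finset.coe_filter, Set.mem_setOf_eq] at hw ⊢
    obtain ⟨hw, ⟨h3, h4⟩, h5⟩ := hw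
    have hqs : q ∈ Sl w := by rw [h4]; exact hq
    obtain ⟨a1, a2, a3, a4, a5⟩ := h2 w hw q hqs
    refine ⟨a1, ⟨(hK w hw q hqs).trans h3, a2.trans h4⟩, ?_⟩
    rw [a5 (by rw [h5]; exact hqT), h5]
  · intro w hw
    simp only [Finset.coe_filter, Set.mem_setOf_eq] at hw
    obtain ⟨hw, ⟨h3, h4⟩, h5⟩ := hw
    exact (h2 w hw q (by rw [h4]; exact hq)).2.2.1
  · intro w hw
    simp only [Finset.coe_filter, Set.mem_setOf_eq] at hw
    obtain ⟨hw, ⟨h3, h4⟩, h5⟩ := hw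
    exact (h2 w hw q (by rw [h4]; exact hq)).2.2.1

theorem NN_eq (h2 : ∀ w ∈ Ω, ∀ q ∈ Sl w, f w q ∈ Ω ∧ Sl (f w q) = Sl w ∧ f (f w q) q = w ∧
    (q ∈ Oc w → Oc (f w q) = (Oc w).erase q) ∧ (q ∉ Oc w → Oc (f w q) = insert q (Oc w)))
    (hK : ∀ w ∈ Ω, ∀ q ∈ Sl w, K (f w q) = K w) (k : β) (E T : Finset κ) (hT : T ⊆ E) :
    NN Ω Sl Oc K k E T = NN Ω Sl Oc K k E ∅ := by
  induction T using Finset.induction_on with
  | empty => rfl
  | insert q T hq ih =>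
    rw [NN_insert h2 hK k E T q (hT (Finset.mem_insert_self _ _)) hq]
    exact ih ((Finset.subset_insert _ _).trans hT)

theorem cls (h1 : ∀ w ∈ Ω, Oc w ⊆ Sl w)
    (h2 : ∀ w ∈ Ω, ∀ q ∈ Sl w, f w q ∈ Ω ∧ Sl (f w q) = Sl w ∧ f (f w q) q = w ∧
    (q ∈ Oc w → Oc (f w q) = (Oc w).erase q) ∧ (q ∉ Oc w → Oc (f w q) = insert q (Oc w)))
    (hK : ∀ w ∈ Ω, ∀ q ∈ Sl w, K (f w q) = K w) (k : β) (E : Finset κ) (φ : Finset κ → ℝ) :
    ∑ w ∈ Ω.filter (fun w => K w = k ∧ Sl w = E), φ (Oc w) =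
      (NN Ω Sl Oc K k E ∅ : ℝ) * ∑ T ∈ E.powerset, φ T := by
  rw [← Finset.sum_fiberwise_of_maps_to (s := Ω.filter (fun w => K w = k ∧ Sl w = E))
    (t := E.powerset) (g := Oc) (by
      intro w hw
      rw [Finset.mem_filter] at hw
      rw [Finset.mem_powerset, ← hw.2.2]
      exact h1 w hw.1), Finset.mul_sum]
  refine Finset.sum_congr rfl fun T hT => ?_
  rw [Finset.sum_congr rfl (g := fun _ => φ T) (fun w hw => by rw [(Finset.mem_filter.1 hw).2]),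
    Finset.sum_const, nsmul_eq_mul, Finset.filter_filter,
    ← NN_eq h2 hK k E T (Finset.mem_powerset.1 hT)]
  rfl

end

theorem mixs : Pool.Agent.N949.CM.S_MIXS := by
  intro α κ β Ω Sl Oc f h1 h2 K hK Φ
  obtain ⟨g, hg⟩ : ∃ g : α → β × Finset κ, g = fun w => (K w, Sl w) := ⟨_, rfl⟩
  rw [← Finset.sum_fiberwise_of_maps_to (s := Ω) (t := Ω.image g) (g := g)
    (fun w hw => Finset.mem_image_of_mem g hw) (fun w => Φ (K w) (Oc w)),
    ← Finset.sum_fiberwise_of_maps_to (s := Ω) (t := Ω.image g) (g := g)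
    (fun w hw => Finset.mem_image_of_mem g hw)
    (fun w => (∑ T ∈ (Sl w).powerset, Φ (K w) T) / 2 ^ (Sl w).card)]
  refine Finset.sum_congr rfl fun c _ => ?_
  obtain ⟨k, E⟩ := c
  have hfil : Ω.filter (fun w => g w = (k, E)) = Ω.filter (fun w => K w = k ∧ Sl w = E) := by
    refine Finset.filter_congr fun w _ => ?_
    rw [hg]
    exact Prod.mk.injEq _ _ _ _ ▸ Iff.rfl
  rw [hfil]
  have e1 : ∑ w ∈ Ω.filter (fun w => K w = k ∧ Sl w = E), Φ (K w) (Oc w) =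
      ∑ w ∈ Ω.filter (fun w => K w = k ∧ Sl w = E), Φ k (Oc w) :=
    Finset.sum_congr rfl fun w hw => by rw [(Finset.mem_filter.1 hw).2.1]
  have e2 : ∑ w ∈ Ω.filter (fun w => K w = k ∧ Sl w = E),
      (∑ T ∈ (Sl w).powerset, Φ (K w) T) / 2 ^ (Sl w).card =
      ∑ w ∈ Ω.filter (fun w => K w = k ∧ Sl w = E), (∑ T ∈ E.powerset, Φ k T) / 2 ^ E.card :=
    Finset.sum_congr rfl fun w hw => by
      rw [(Finset.mem_filter.1 hw).2.1, (Finset.mem_filter.1 hw).2.2]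
  rw [e1, e2, cls h1 h2 hK k E (Φ k), Finset.sum_const, nsmul_eq_mul]
  have e3 : ((Ω.filter (fun w => K w = k ∧ Sl w = E)).card : ℝ) =
      (NN Ω Sl Oc K k E ∅ : ℝ) * 2 ^ E.card := by
    have h3 := cls h1 h2 hK k E (fun _ => (1 : ℝ))
    rw [Finset.sum_const, nsmul_eq_mul, mul_one, Finset.sum_const, nsmul_eq_mul, mul_one,
      Finset.card_powerset] at h3
    rw [h3]
    push_cast
    ring
  rw [e3]
  field_simp

end Pool.Agent.N787.CM
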